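import Mathlib

set_option autoImplicit false

namespace Pool.Agent.Results.MP_a80f1a_gt.Octa

open MeasureTheory Filter Topology Pointwise Finset

/-- The difference quotient `(λ(S ⊕ δK) - λ(S)) / δ`. -/
noncomputable def quot {d : ℕ} (K S : Set (Fin d → ℝ)) (δ : ℝ) : ENNReal :=
  (volume (S + δ • K) - volume S) / ENNReal.ofReal δ

def B (c : Fin 3 → ℝ) (t : ℝ) : Set (Fin 3 → ℝ) := {x | ∑ l, |x l - c l| ≤ t}

lemma B_meas (c : Fin 3 → ℝ) (t : ℝ) : MeasurableSet (B c t) :=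
  (isClosed_le (by fun_prop) continuous_const).measurableSet

lemma B_eq (c : Fin 3 → ℝ) {t : ℝ} (ht : 0 < t) : B c t = c +ᵥ t • B 0 1 := by
  ext x
  rw [Set.mem_vadd_set_iff_neg_vadd_mem, Set.mem_smul_set_iff_inv_smul_mem₀ ht.ne']
  simp only [B, Set.mem_setOf_eq, Pi.smul_apply, vadd_eq_add, Pi.add_apply, Pi.neg_apply,
    smul_eq_mul, Pi.zero_apply, sub_zero, abs_mul, abs_of_pos (inv_pos.2 ht), ← mul_sum,
    neg_add_eq_sub]
  rw [inv_mul_le_iff₀ ht, mul_one]
  rfl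

lemma K_sub : B 0 1 ⊆ Metric.closedBall 0 1 := by
  intro x hx
  rw [mem_closedBall_zero_iff, pi_norm_le_iff_of_nonneg zero_le_one]
  intro l
  have := single_le_sum (f := fun l => |x l - (0 : Fin 3 → ℝ) l|) (fun l _ => abs_nonneg _)
    (mem_univ l)
  have h : ∑ l, |x l - (0 : Fin 3 → ℝ) l| ≤ 1 := hx
  simpa using this.trans h

lemma K_cvx : Convex ℝ (B 0 1) := by
  intro x hx y hy a b ha hb hab
  simp only [B, Set.mem_setOf_eq, Pi.zero_apply, sub_zero, Pi.add_apply, Pi.smul_apply,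
    smul_eq_mul] at *
  calc _ ≤ ∑ l, (a * |x l| + b * |y l|) := sum_le_sum fun l _ => by
        refine (abs_add_le _ _).trans ?_
        rw [abs_mul, abs_mul, abs_of_nonneg ha, abs_of_nonneg hb]
    _ = a * ∑ l, |x l| + b * ∑ l, |y l| := by rw [sum_add_distrib, mul_sum, mul_sum]
    _ ≤ 1 := by nlinarith

lemma K_fin : volume (B 0 1) ≠ ⊤ :=
  ((measure_mono K_sub).trans_lt measure_closedBall_lt_top).ne

lemma K_pos : 0 < volume.real (B 0 1) := by
  apply ENNReal.toReal_pos _ K_fin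
  have : Metric.ball (0 : Fin 3 → ℝ) (1 / 3) ⊆ B 0 1 := by
    intro x hx
    rw [mem_ball_zero_iff, pi_norm_lt_iff (by norm_num)] at hx
    have h0 := hx 0
    have h1 := hx 1
    have h2 := hx 2
    simp only [B, Set.mem_setOf_eq, Pi.zero_apply, sub_zero, Fin.sum_univ_three, Real.norm_eq_abs] at *
    linarith
  exact ((Metric.measure_ball_pos volume _ (by norm_num)).trans_le (measure_mono this)).ne'

lemma B_vol (c : Fin 3 → ℝ) {t : ℝ} (ht : 0 < t) :
    volume (B c t) = ENNReal.ofReal (t ^ 3) * volume (B 0 1) := by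
  rw [B_eq c ht, measure_vadd, Measure.addHaar_smul]
  simp [abs_of_pos ht]

lemma B_fin (c : Fin 3 → ℝ) {t : ℝ} (ht : 0 < t) : volume (B c t) ≠ ⊤ := by
  rw [B_vol c ht]; exact ENNReal.mul_ne_top ENNReal.ofReal_ne_top K_fin

lemma B_real (c : Fin 3 → ℝ) {t : ℝ} (ht : 0 < t) :
    volume.real (B c t) = t ^ 3 * volume.real (B 0 1) := by
  rw [Measure.real, B_vol c ht, ENNReal.toReal_mul, ENNReal.toReal_ofReal (by positivity)]
  rfl

def sg (b : Bool) : ℝ := if b then 1 else -1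

def ctr (a : Fin 3 × Bool) : Fin 3 → ℝ := Pi.single a.1 (sg a.2)

lemma inter_eq (a : Fin 3 × Bool) (t : ℝ) :
    B (ctr a) t ∩ B 0 t = B ((1 / 2 : ℝ) • ctr a) (t - 1 / 2) := by
  have k : ∀ u s w : ℝ, (s = 1 ∨ s = -1) →
      ((|u - s| + w ≤ t ∧ |u| + w ≤ t) ↔ |u - 2⁻¹ * s| + w ≤ t - 2⁻¹) := by
    rintro u s w (rfl | rfl)
    · rcases abs_cases (u - 1) with h1 | h1 <;> rcases abs_cases u with h2 | h2 <;>
        rcases abs_cases (u - 2⁻¹ * 1) with h3 | h3 <;> constructor <;> intro h <;>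
        first | (constructor <;> linarith) | linarith [h.1, h.2]
    · rcases abs_cases (u - -1) with h1 | h1 <;> rcases abs_cases u with h2 | h2 <;>
        rcases abs_cases (u - 2⁻¹ * -1) with h3 | h3 <;> constructor <;> intro h <;>
        first | (constructor <;> linarith) | linarith [h.1, h.2]
  obtain ⟨i, b⟩ := a
  have hs : sg b = 1 ∨ sg b = -1 := by cases b <;> simp [sg]
  ext x
  simp only [B, ctr, Set.mem_inter_iff, Set.mem_setOf_eq, Fin.sum_univ_three, Pi.zero_apply,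
    sub_zero, Pi.smul_apply, smul_eq_mul, one_div]
  fin_cases i
  · have := k (x 0) (sg b) (|x 1| + |x 2|) hs
    simpa [add_assoc] using this
  · have := k (x 1) (sg b) (|x 0| + |x 2|) hs
    simpa [add_assoc, add_comm, add_left_comm] using this
  · have := k (x 2) (sg b) (|x 0| + |x 1|) hs
    simpa [add_assoc, add_comm, add_left_comm] using this

def tube (δ : ℝ) (q : Fin 3 × Fin 3 × Bool) : Set (Fin 3 → ℝ) :=
  {x | q.1 ≠ q.2.1 ∧ ∀ l, |x l + if l = q.2.1 then sg q.2.2 * x q.1 else 0|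
    ≤ if l = q.1 then 3 else 2 * δ}

lemma tube_vol {δ : ℝ} (hδ : 0 < δ) (q : Fin 3 × Fin 3 × Bool) :
    MeasurableSet (tube δ q) ∧ volume (tube δ q) ≤ ENNReal.ofReal (96 * δ ^ 2) := by
  obtain ⟨i, j, b⟩ := q
  by_cases h : i = j
  · have : tube δ (i, j, b) = ∅ := by
      ext x; simp [tube, h]
    rw [this]; simp
  · have mp := Real.volume_preserving_transvectionStruct
      (⟨j, i, Ne.symm h, sg b⟩ : Matrix.TransvectionStruct (Fin 3) ℝ)
    have e : tube δ (i, j, b) = (Matrix.toLin' (Matrix.TransvectionStruct.toMatrix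
        (⟨j, i, Ne.symm h, sg b⟩ : Matrix.TransvectionStruct (Fin 3) ℝ))) ⁻¹'
        Set.Icc (fun l => -(if l = i then 3 else 2 * δ)) (fun l => if l = i then 3 else 2 * δ) := by
      ext x
      simp only [tube, Set.mem_setOf_eq, ne_eq, h, not_false_eq_true, true_and, Set.mem_preimage,
        Matrix.TransvectionStruct.toMatrix_mk, Matrix.toLin'_apply, Matrix.transvection,
        Matrix.add_mulVec, Matrix.one_mulVec, Matrix.single_mulVec, Set.mem_Icc, Pi.le_def,
        Pi.add_apply, Function.update_apply, Pi.zero_apply, abs_le, forall_and]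
    rw [e]
    refine ⟨mp.measurable measurableSet_Icc, ?_⟩
    rw [mp.measure_preimage measurableSet_Icc.nullMeasurableSet, Real.volume_Icc_pi,
      ← ENNReal.ofReal_prod_of_nonneg]
    · apply ENNReal.ofReal_le_ofReal
      fin_cases i <;> simp [Fin.prod_univ_three] <;> nlinarith
    · intro l _
      split_ifs <;> linarith

lemma pair {δ : ℝ} (h1 : δ ≤ 1) (a a' : Fin 3 × Bool) (h : a ≠ a') (x : Fin 3 → ℝ)
    (hx : x ∈ B (ctr a) (1 + δ)) (hx' : x ∈ B (ctr a') (1 + δ)) : ∃ q, x ∈ tube δ q := by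
  obtain ⟨i, b⟩ := a
  obtain ⟨j, c⟩ := a'
  have p0 := le_abs_self (x 0)
  have p1 := le_abs_self (x 1)
  have p2 := le_abs_self (x 2)
  have q0 := neg_abs_le (x 0)
  have q1 := neg_abs_le (x 1)
  have q2 := neg_abs_le (x 2)
  have r0 := le_abs_self (x 0 - 1)
  have r1 := le_abs_self (x 1 - 1)
  have r2 := le_abs_self (x 2 - 1)
  have s0 := neg_abs_le (x 0 - 1)
  have s1 := neg_abs_le (x 1 - 1)
  have s2 := neg_abs_le (x 2 - 1)
  have t0 := le_abs_self (x 0 + 1)
  have t1 := le_abs_self (x 1 + 1)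
  have t2 := le_abs_self (x 2 + 1)
  have u0 := neg_abs_le (x 0 + 1)
  have u1 := neg_abs_le (x 1 + 1)
  have u2 := neg_abs_le (x 2 + 1)
  by_cases hij : i = j
  · subst hij
    refine ⟨(i, i + 1, true), ?_⟩
    fin_cases i <;> cases b <;> cases c <;> first
      | exact absurd rfl h
      | (simp [B, ctr, sg, Fin.sum_univ_three] at hx hx'
         simp [tube, sg, Fin.forall_fin_succ, abs_le]
         refine ⟨⟨?_, ?_⟩, ⟨?_, ?_⟩, ⟨?_, ?_⟩⟩ <;> linarith)
  · refine ⟨(i, j, xor b c), ?_⟩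
    fin_cases i <;> fin_cases j <;> cases b <;> cases c <;> first
      | exact absurd rfl hij
      | (simp [B, ctr, sg, Fin.sum_univ_three] at hx hx'
         simp [tube, sg, Fin.forall_fin_succ, abs_le]
         refine ⟨⟨?_, ?_⟩, ⟨?_, ?_⟩, ⟨?_, ?_⟩⟩ <;> linarith)

def U (t : ℝ) : Set (Fin 3 → ℝ) := B 0 t ∪ ⋃ a, B (ctr a) t

lemma U_fin {t : ℝ} (ht : 0 < t) : volume (U t) ≠ ⊤ := by
  refine ((measure_union_le _ _).trans_lt (ENNReal.add_lt_top.2 ⟨(B_fin _ ht).lt_top, ?_⟩)).ne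
  exact (measure_iUnion_fintype_le _ _).trans_lt
    (ENNReal.sum_lt_top.2 fun a _ => (B_fin _ ht).lt_top)

lemma diff_real (a : Fin 3 × Bool) {t : ℝ} (ht : 1 ≤ t) :
    volume.real (B (ctr a) t \ B 0 t) = (t ^ 3 - (t - 1 / 2) ^ 3) * volume.real (B 0 1) := by
  have := measureReal_inter_add_diff (μ := volume) (s := B (ctr a) t) (B_meas 0 t)
    (B_fin _ (by linarith))
  rw [inter_eq, B_real _ (by linarith : 0 < t - 1 / 2), B_real _ (by linarith : 0 < t)] at this
  linarith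

lemma U_upper : volume.real (U 1) ≤ (1 + 6 * (7 / 8)) * volume.real (B 0 1) := by
  have e : U 1 = B 0 1 ∪ ⋃ a, (B (ctr a) 1 \ B 0 1) := by
    rw [← Set.iUnion_diff, Set.union_diff_self]; rfl
  rw [e]
  refine (measureReal_union_le _ _).trans ?_
  have := measureReal_iUnion_fintype_le (μ := volume) (fun a => B (ctr a) 1 \ B 0 1)
  simp only [diff_real _ le_rfl, sum_const, card_univ, Fintype.card_prod, Fintype.card_fin,
    Fintype.card_bool, nsmul_eq_mul] at this
  norm_num at this ⊢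
  linarith

lemma U_lower {δ : ℝ} (h0 : 0 < δ) (h1 : δ ≤ 1) :
    ((1 + δ) ^ 3 + 6 * ((1 + δ) ^ 3 - (1 + δ - 1 / 2) ^ 3)) * volume.real (B 0 1)
      - 6 * (18 * (96 * δ ^ 2)) ≤ volume.real (U (1 + δ)) := by
  set N : Set (Fin 3 → ℝ) := ⋃ q, tube δ q with hN
  have hNm : MeasurableSet N := MeasurableSet.iUnion fun q => (tube_vol h0 q).1
  have hNf : volume N ≠ ⊤ := ((measure_iUnion_fintype_le _ _).trans_lt
    (ENNReal.sum_lt_top.2 fun q _ => (tube_vol h0 q).2.trans_lt ENNReal.ofReal_lt_top)).ne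
  have hNr : volume.real N ≤ 18 * (96 * δ ^ 2) := by
    refine (measureReal_iUnion_fintype_le _).trans ?_
    calc _ ≤ ∑ _q : Fin 3 × Fin 3 × Bool, 96 * δ ^ 2 := sum_le_sum fun q _ =>
          ENNReal.toReal_le_of_le_ofReal (by positivity) (tube_vol h0 q).2
      _ = _ := by simp
  have ht : (0 : ℝ) < 1 + δ := by linarith
  have hP : ∀ a, ((1 + δ) ^ 3 - (1 + δ - 1 / 2) ^ 3) * volume.real (B 0 1) - 18 * (96 * δ ^ 2)
      ≤ volume.real ((B (ctr a) (1 + δ) \ B 0 (1 + δ)) \ N) := by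
    intro a
    have := le_measureReal_diff (μ := volume) (s₁ := B (ctr a) (1 + δ) \ B 0 (1 + δ)) (s₂ := N) hNf
    rw [diff_real a (by linarith)] at this
    linarith
  have hPf : ∀ a, volume ((B (ctr a) (1 + δ) \ B 0 (1 + δ)) \ N) ≠ ⊤ := fun a =>
    ((measure_mono (Set.diff_subset.trans Set.diff_subset)).trans_lt (B_fin _ ht).lt_top).ne
  have hPm : ∀ a, MeasurableSet ((B (ctr a) (1 + δ) \ B 0 (1 + δ)) \ N) := fun a =>
    ((B_meas _ _).diff (B_meas _ _)).diff hNm
  have hsub : B 0 (1 + δ) ∪ ⋃ a, ((B (ctr a) (1 + δ) \ B 0 (1 + δ)) \ N) ⊆ U (1 + δ) :=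
    Set.union_subset_union_right _ (Set.iUnion_mono fun a => Set.diff_subset.trans Set.diff_subset)
  refine le_trans ?_ (measureReal_mono hsub (U_fin ht))
  rw [measureReal_union _ (MeasurableSet.iUnion hPm) (B_fin _ ht)
    (((measure_iUnion_fintype_le _ _).trans_lt (ENNReal.sum_lt_top.2 fun a _ => (hPf a).lt_top)).ne),
    measureReal_iUnion_fintype _ hPm hPf, B_real _ ht]
  · have := sum_le_sum (s := univ) fun a _ => hP a
    simp only [sum_const, card_univ, Fintype.card_prod, Fintype.card_fin,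
      Fintype.card_bool, nsmul_eq_mul] at this
    push_cast at this
    linarith
  · intro a a' h
    rw [Function.onFun, Set.disjoint_left]
    intro x hx hx'
    exact hx.2 (Set.mem_iUnion.2 (pair h1 a a' h x hx.1.1 hx'.1.1))
  · rw [Set.disjoint_left]
    intro x hx hx'
    obtain ⟨a, ha⟩ := Set.mem_iUnion.1 hx'
    exact ha.1.2 hx

lemma U_eq {t : ℝ} (ht : 0 < t) : insert 0 (Set.range ctr) + t • B 0 1 = U t := by
  rw [U, Set.insert_eq, Set.union_add, Set.range_eq_iUnion, Set.iUnion_add]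
  simp only [B_eq _ ht, Set.singleton_add]
  rfl

theorem result : ∃ K X : Set (Fin 3 → ℝ), Bornology.IsBounded K ∧ Convex ℝ K ∧ -K = K ∧
    X.Finite ∧ X.Nonempty ∧ X ⊆ K ∧
    limsup (quot K ((2 : ℝ) • K)) (𝓝[>] 0) < liminf (quot K (insert 0 X + K)) (𝓝[>] 0) := by
  have hv := K_pos
  set v := volume.real (B 0 1) with hvv
  refine ⟨B 0 1, Set.range ctr, Metric.isBounded_closedBall.subset K_sub, K_cvx, ?_,
    Set.finite_range _, Set.range_nonempty _, ?_, ?_⟩
  · ext x; simp [B]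
  · rintro _ ⟨⟨i, b⟩, rfl⟩
    fin_cases i <;> cases b <;> simp [B, ctr, sg, Fin.sum_univ_three]
  have hev : ∀ᶠ δ : ℝ in 𝓝[>] 0, 0 < δ ∧ δ ≤ 1 / 10 ∧ δ ≤ v / 20000 := by
    have : Set.Ioo (0 : ℝ) (min (1 / 10) (v / 20000)) ∈ 𝓝[>] (0 : ℝ) :=
      Ioo_mem_nhdsGT (lt_min (by norm_num) (by positivity))
    filter_upwards [this] with δ h
    exact ⟨h.1, h.2.le.trans (min_le_left _ _), h.2.le.trans (min_le_right _ _)⟩
  calc _ ≤ ENNReal.ofReal (13 * v) := by
        apply limsup_le_of_le (by isBoundedDefault)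
        filter_upwards [hev] with δ ⟨h0, h1, h2⟩
        have e1 : (2 : ℝ) • B 0 1 = B 0 2 := by rw [B_eq 0 (by norm_num : (0 : ℝ) < 2)]; simp
        have e2 : (2 : ℝ) • B 0 1 + δ • B 0 1 = B 0 (2 + δ) := by
          rw [← K_cvx.add_smul (by norm_num) h0.le, B_eq 0 (by linarith : (0 : ℝ) < 2 + δ)]; simp
        rw [quot, e2, e1, ← ofReal_measureReal (B_fin 0 (by linarith : (0 : ℝ) < 2 + δ)),
          ← ofReal_measureReal (B_fin 0 (by norm_num : (0 : ℝ) < 2)),
          ← ENNReal.ofReal_sub _ measureReal_nonneg, ← ENNReal.ofReal_div_of_pos h0,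
          B_real 0 (by linarith : (0 : ℝ) < 2 + δ), B_real 0 (by norm_num : (0 : ℝ) < 2)]
        apply ENNReal.ofReal_le_ofReal
        rw [div_le_iff₀ h0, ← hvv]
        have : (2 + δ) ^ 3 - 2 ^ 3 ≤ 13 * δ := by nlinarith [mul_pos h0 h0]
        nlinarith
    _ < ENNReal.ofReal (15 * v) := (ENNReal.ofReal_lt_ofReal_iff (by positivity)).2 (by linarith)
    _ ≤ _ := by
        apply le_liminf_of_le (by isBoundedDefault)
        filter_upwards [hev] with δ ⟨h0, h1, h2⟩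
        have e1 : insert 0 (Set.range ctr) + B 0 1 = U 1 := by
          rw [← U_eq one_pos, one_smul]
        have e2 : insert 0 (Set.range ctr) + B 0 1 + δ • B 0 1 = U (1 + δ) := by
          rw [← U_eq (by linarith), K_cvx.add_smul zero_le_one h0.le, one_smul, add_assoc]
        rw [quot, e2, e1, ← ofReal_measureReal (U_fin (by linarith : (0 : ℝ) < 1 + δ)),
          ← ofReal_measureReal (U_fin one_pos),
          ← ENNReal.ofReal_sub _ measureReal_nonneg, ← ENNReal.ofReal_div_of_pos h0]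
        apply ENNReal.ofReal_le_ofReal
        rw [le_div_iff₀ h0]
        have a1 := U_upper
        have a2 := U_lower h0 (by linarith)
        rw [← hvv] at a1 a2
        have a3 : 16 * δ ≤ (1 + δ) ^ 3 + 6 * ((1 + δ) ^ 3 - (1 + δ - 1 / 2) ^ 3)
            - (1 + 6 * (7 / 8)) := by nlinarith [mul_pos h0 h0, mul_pos h0 (mul_pos h0 h0)]
        nlinarith [mul_le_mul_of_nonneg_right a3 hv.le, mul_le_mul_of_nonneg_left h2 h0.le]

end Pool.Agent.Results.MP_a80f1a_gt.Octa
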